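import Pool.Agent.helper92.RC.Spec

/-! # The class is closed under Cartesian products -/

set_option autoImplicit false

namespace Pool.Agent.helper92.RC

open scoped commutatorElement

universe u

theorem QPR : QPI_stmt.{u} → QPR_stmt.{u} := by
  intro hQ I G inst hG
  refine hQ (∀ i, G i) fun g => ?_
  let p : Piece (fun X hX => @Cl X hX) (∀ i, G i) :=
    { L := I
      X := G
      gX := inst
      hX := hG
      M := ⊤
      hM := inferInstance
      θ := (⊤ : Subgroup (∀ i, G i)).subtype
      hθ := by
        rw [Subgroup.range_subtype]
        infer_instance }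
  refine ⟨p, p, ⟨g, Subgroup.mem_top g⟩, 1, ?_⟩
  rw [map_one, mul_one]
  rfl

end Pool.Agent.helper92.RC
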